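import Pool.Agent.W792.WA.Stm
import Pool.Agent.W335.LLCay

/-!
The variance of the Cayley transform of a small multiple of a random variable.
-/

set_option autoImplicit false

namespace Pool.Agent.W999.WA.Vr

open MeasureTheory Pool.Agent.W792.LL Pool.Agent.W792.WA
open Pool.Agent.W335.LLCay (sub_ne norm_sub norm_cay cont_cay)

theorem cay_sub (u v : ℝ) : cay u - cay v =
    2 * Complex.I * ((v : ℂ) - u) / (((u : ℂ) - Complex.I) * ((v : ℂ) - Complex.I)) := by
  unfold cay
  rw [div_sub_div _ _ (sub_ne u) (sub_ne v)]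
  congr 1
  ring

theorem norm_cay_sub (u v : ℝ) : ‖cay u - cay v‖ ^ 2 =
    4 * (u - v) ^ 2 / ((1 + u ^ 2) * (1 + v ^ 2)) := by
  have h1 : ‖(v : ℂ) - u‖ ^ 2 = (u - v) ^ 2 := by
    rw [← Complex.ofReal_sub, Complex.norm_real, Real.norm_eq_abs, sq_abs]
    ring
  rw [cay_sub, norm_div, norm_mul, norm_mul, norm_mul, Complex.norm_I, div_pow, mul_pow, mul_pow,
    mul_pow, norm_sub, norm_sub, h1]
  norm_num

theorem norm_cay_sub_ge {u v : ℝ} (hu : |u| ≤ 1) (hv : |v| ≤ 1) :
    (u - v) ^ 2 ≤ ‖cay u - cay v‖ ^ 2 := by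
  rw [norm_cay_sub, le_div_iff₀ (by positivity)]
  have h1 : u ^ 2 ≤ 1 := (sq_le_one_iff_abs_le_one u).2 hu
  have h2 : v ^ 2 ≤ 1 := (sq_le_one_iff_abs_le_one v).2 hv
  have h3 : (1 + u ^ 2) * (1 + v ^ 2) ≤ 4 := by nlinarith [sq_nonneg u, sq_nonneg v]
  nlinarith [sq_nonneg (u - v)]

/-- distances of unit vectors -/
theorem norm_sub_sq {z w : ℂ} (hz : ‖z‖ = 1) (hw : ‖w‖ = 1) :
    ‖z - w‖ ^ 2 = 2 - 2 * (z * (starRingEnd ℂ) w).re := by
  have h1 : Complex.normSq z = 1 := by rw [Complex.normSq_eq_norm_sq, hz, one_pow]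
  have h2 : Complex.normSq w = 1 := by rw [Complex.normSq_eq_norm_sq, hw, one_pow]
  rw [← Complex.normSq_eq_norm_sq, Complex.normSq_sub, h1, h2]
  ring

theorem main : S_VR := by
  intro ν _ C hC hb hat
  -- integrability
  have hint : ∀ f : ℝ → ℝ, Continuous f → Integrable f ν := by
    intro f hf
    obtain ⟨B, hB⟩ := (isCompact_Icc (a := -C) (b := C)).exists_bound_of_continuousOn
      hf.continuousOn
    refine Integrable.of_bound hf.aestronglyMeasurable B ?_
    filter_upwards [hb] with x hx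
    exact hB x (abs_le.1 hx)
  set m := ∫ x, x ∂ν with hm
  set W := ∫ x, (x - m) ^ 2 ∂ν with hW
  have hW0 : 0 ≤ W := integral_nonneg fun x => sq_nonneg _
  have hWpos : 0 < W := by
    refine lt_of_le_of_ne hW0 fun h0 => ?_
    have h1 := (integral_eq_zero_iff_of_nonneg (fun x => sq_nonneg (x - m))
      (hint _ (by fun_prop))).1 h0.symm
    have h2 : ν {m} = 1 := by
      rw [← prob_compl_eq_zero_iff (measurableSet_singleton m)]
      refine measure_mono_null ?_ (ae_iff.1 h1)
      intro x hx hx'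
      refine hx ?_
      have h3 : (x - m) ^ 2 = 0 := hx'
      have h4 : x - m = 0 := by simpa using h3
      exact sub_eq_zero.1 h4
    exact (ne_of_lt (hat m)) h2
  -- the variance is the smallest second moment
  have hmin : ∀ y : ℝ, W ≤ ∫ x, (x - y) ^ 2 ∂ν := by
    intro y
    have h1 : ∫ x, (x - y) ^ 2 ∂ν = W + (m - y) ^ 2 := by
      have h2 : ∀ x : ℝ, (x - y) ^ 2 = (x - m) ^ 2 + (2 * (m - y) * (x - m) + (m - y) ^ 2) := by
        intro x; ring
      rw [integral_congr_ae (Filter.Eventually.of_forall h2)]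
      rw [integral_add (hint _ (by fun_prop)) (hint _ (by fun_prop)),
        integral_add (hint _ (by fun_prop)) (hint _ (by fun_prop)), integral_const_mul,
        integral_sub (hint _ (by fun_prop)) (hint _ (by fun_prop)), ← hm, ← hW]
      simp
    rw [h1]
    nlinarith [sq_nonneg (m - y)]
  refine ⟨W / (2 * C ^ 2), 1 / C, by positivity, by positivity, ?_⟩
  intro lam hlam hlam1
  have hlC : lam * C ≤ 1 := by
    rw [le_div_iff₀ hC] at hlam1
    exact hlam1
  have hcc : Continuous fun x : ℝ => cay (lam * x) := cont_cay.comp (by fun_prop)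
  have hZ1 : ∀ x : ℝ, ‖cay (lam * x)‖ = 1 := fun x => norm_cay _
  have hZi : Integrable (fun x : ℝ => cay (lam * x)) ν :=
    Integrable.of_bound hcc.aestronglyMeasurable 1 (Filter.Eventually.of_forall fun x => (hZ1 x).le)
  set e := ∫ x, cay (lam * x) ∂ν with he
  have hvr : vr (ν.map fun x => lam * x) = 1 - ‖e‖ ^ 2 := by
    unfold vr
    rw [integral_map (by fun_prop) cont_cay.aestronglyMeasurable]
  -- for fixed `y`
  have hy : ∀ y : ℝ, |y| ≤ C →
      lam ^ 2 * W ≤ 2 - 2 * (e * (starRingEnd ℂ) (cay (lam * y))).re := by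
    intro y hyC
    have h1 : ∫ x, ‖cay (lam * x) - cay (lam * y)‖ ^ 2 ∂ν =
        2 - 2 * (e * (starRingEnd ℂ) (cay (lam * y))).re := by
      have h2 : ∀ x : ℝ, ‖cay (lam * x) - cay (lam * y)‖ ^ 2 =
          2 - 2 * (cay (lam * x) * (starRingEnd ℂ) (cay (lam * y))).re := fun x =>
        norm_sub_sq (hZ1 x) (hZ1 y)
      have h3 : Integrable (fun x : ℝ => cay (lam * x) * (starRingEnd ℂ) (cay (lam * y))) ν :=
        hZi.mul_const _
      have h4 : Integrable (fun x : ℝ =>
          (cay (lam * x) * (starRingEnd ℂ) (cay (lam * y))).re) ν := h3.re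
      have h5 : ∫ x, (cay (lam * x) * (starRingEnd ℂ) (cay (lam * y))).re ∂ν =
          (e * (starRingEnd ℂ) (cay (lam * y))).re := by
        have h6 := integral_re h3
        have h7 : ∫ x, cay (lam * x) * (starRingEnd ℂ) (cay (lam * y)) ∂ν =
            e * (starRingEnd ℂ) (cay (lam * y)) := integral_mul_const _ _
        rw [h7] at h6
        exact h6
      simp only [h2]
      rw [integral_sub (integrable_const _) (h4.const_mul 2), integral_const_mul, h5]
      simp
    rw [← h1]
    have h2 : lam ^ 2 * W ≤ ∫ x, lam ^ 2 * (x - y) ^ 2 ∂ν := by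
      rw [integral_const_mul]
      exact mul_le_mul_of_nonneg_left (hmin y) (sq_nonneg _)
    refine h2.trans (integral_mono_ae (hint _ (by fun_prop)) (hint _ (by fun_prop)) ?_)
    filter_upwards [hb] with x hx
    have h3 : ∀ t : ℝ, |t| ≤ C → |lam * t| ≤ 1 := by
      intro t ht
      rw [abs_mul, abs_of_pos hlam]
      exact (mul_le_mul_of_nonneg_left ht hlam.le).trans hlC
    have h4 := norm_cay_sub_ge (h3 x hx) (h3 y hyC)
    calc lam ^ 2 * (x - y) ^ 2 = (lam * x - lam * y) ^ 2 := by ring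
      _ ≤ _ := h4
  -- integration over `y`
  have hfin : lam ^ 2 * W ≤ 2 * (1 - ‖e‖ ^ 2) := by
    have h1 : Integrable (fun y : ℝ => e * (starRingEnd ℂ) (cay (lam * y))) ν := by
      refine Integrable.const_mul ?_ e
      exact Integrable.of_bound (Complex.continuous_conj.comp hcc).aestronglyMeasurable 1
        (Filter.Eventually.of_forall fun x => by rw [RCLike.norm_conj]; exact (hZ1 x).le)
    have h2 : ∫ y, (e * (starRingEnd ℂ) (cay (lam * y))).re ∂ν = ‖e‖ ^ 2 := by
      have h6 := integral_re h1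
      have h7 : ∫ y, e * (starRingEnd ℂ) (cay (lam * y)) ∂ν = e * (starRingEnd ℂ) e := by
        rw [integral_const_mul, integral_conj]
      rw [h7, RCLike.mul_conj] at h6
      have h8 : ∫ y, (e * (starRingEnd ℂ) (cay (lam * y))).re ∂ν =
          ((‖e‖ : ℂ) ^ 2).re := h6
      rw [h8, ← Complex.ofReal_pow, Complex.ofReal_re]
    have h1' : Integrable (fun y : ℝ => (e * (starRingEnd ℂ) (cay (lam * y))).re) ν := h1.re
    have h3 : ∫ _y, lam ^ 2 * W ∂ν ≤
        ∫ y, (2 - 2 * (e * (starRingEnd ℂ) (cay (lam * y))).re) ∂ν := by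
      refine integral_mono_ae (integrable_const _)
        ((integrable_const _).sub (h1'.const_mul 2)) ?_
      filter_upwards [hb] with y hyC
      exact hy y hyC
    rw [integral_sub (integrable_const _) (h1'.const_mul 2),
      integral_const_mul (2 : ℝ) (fun a : ℝ => (e * (starRingEnd ℂ) (cay (lam * a))).re), h2] at h3
    simp only [integral_const, probReal_univ, smul_eq_mul, one_mul] at h3
    linarith
  rw [hvr]
  have h5 : W / (2 * C ^ 2) * (lam * C) ^ 2 = lam ^ 2 * W / 2 := by
    field_simp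
  rw [h5]
  linarith

end Pool.Agent.W999.WA.Vr
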